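import Mathlib
import Pool.Agent.V11181.Hit

set_option autoImplicit false

/-!
# `R_{F_2}(2, d) ≥ 2d - O(log d)`

A random set of nonzero vectors of `F_2^n`, `n = 2m`, of density `2^{-m-2}`, analysed with the
local lemma, contains no `{x, y, x + y}` and meets every subspace of dimension
`m + O(log m)`.
-/

namespace Pool.Agent.Results.MP_b5ddc9_co.TwoTimesD

open Finset Module

/-- `Arrow r d n`: for every colouring of the nonzero vectors of `F_2^n` with `r` colours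
`0, …, r - 1`, some colour `i` with `i + 1 < r` has a monochromatic two-dimensional subspace or
the last colour has a monochromatic `d`-dimensional subspace. -/
def Arrow (r d n : ℕ) : Prop :=
  ∀ c : (Fin n → ZMod 2) → Fin r,
    (∃ i : Fin r, (i : ℕ) + 1 < r ∧ ∃ V : Submodule (ZMod 2) (Fin n → ZMod 2),
      finrank (ZMod 2) V = 2 ∧ ∀ v ∈ V, v ≠ 0 → c v = i) ∨
    (∃ i : Fin r, (i : ℕ) + 1 = r ∧ ∃ V : Submodule (ZMod 2) (Fin n → ZMod 2),
      finrank (ZMod 2) V = d ∧ ∀ v ∈ V, v ≠ 0 → c v = i)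

/-- `R^{(r)}_{F_2}(2; d)`: the least `n` with `Arrow r d n`. -/
noncomputable def R (r d : ℕ) : ℕ∞ :=
  sInf ((fun n : ℕ => (n : ℕ∞)) '' {n : ℕ | Arrow r d n})

lemma exp_le {y : ℝ} (h0 : 0 ≤ y) (h1 : y ≤ 1 / 2) : Real.exp (-(2 * y)) ≤ 1 - y := by
  have hpos : 0 < 1 - y := by linarith
  have h2 := Real.one_sub_inv_le_log_of_pos hpos
  have h3 : -(2 * y) ≤ 1 - (1 - y)⁻¹ := by
    rw [← sub_nonneg]
    have : 1 - (1 - y)⁻¹ - -(2 * y) = y * (1 - 2 * y) / (1 - y) := by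
      field_simp; ring
    rw [this]
    apply div_nonneg _ hpos.le
    apply mul_nonneg h0; linarith
  calc Real.exp (-(2 * y)) ≤ Real.exp (Real.log (1 - y)) := Real.exp_le_exp.2 (h3.trans h2)
    _ = 1 - y := Real.exp_log hpos

lemma numeric (d n m t w : ℕ) (hd : d = m + t) (hd1 : 1 ≤ d) (hn : n ≤ 2 * m)
    (ht : 16 * d ^ 2 ≤ 2 ^ t) (hw : w ≤ (2 ^ n) ^ d) :
    (w : ℝ) * (1 - 1 / ((2 ^ (m + 2) : ℕ) : ℝ)) ^ (2 ^ d - 1) <
      (1 - 2 * (1 / ((2 ^ (m + 2) : ℕ) : ℝ) ^ 3)) ^ ((2 ^ d - 1) * 2 ^ n) := by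
  set M : ℝ := ((2 ^ (m + 2) : ℕ) : ℝ) with hM
  have hMv : M = 4 * 2 ^ m := by rw [hM]; push_cast; ring
  have h2m : (1 : ℝ) ≤ 2 ^ m := one_le_pow₀ (by norm_num)
  have hM4 : 4 ≤ M := by rw [hMv]; linarith
  have hMpos : 0 < M := by linarith
  set s : ℕ := 2 ^ d - 1 with hs
  have hsr : (s : ℝ) = 2 ^ d - 1 := by
    rw [hs, Nat.cast_sub (Nat.one_le_two_pow)]; push_cast; ring
  have hs0 : (0 : ℝ) ≤ s := Nat.cast_nonneg _
  set q : ℝ := 1 / M ^ 3 with hq
  have hM3 : (64 : ℝ) ≤ M ^ 3 := by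
    have : (4 : ℝ) ^ 3 ≤ M ^ 3 := pow_le_pow_left₀ (by norm_num) hM4 3
    linarith
  have hq0 : 0 < q := by rw [hq]; positivity
  have hq64 : q ≤ 1 / 64 := by
    rw [hq]; exact one_div_le_one_div_of_le (by norm_num) hM3
  -- left side
  have hL : (w : ℝ) * (1 - 1 / M) ^ s ≤ Real.exp (n * d * Real.log 2 - s / M) := by
    have h1 : (1 - 1 / M) ^ s ≤ Real.exp (-(s / M)) := by
      have h2 : 1 - 1 / M ≤ Real.exp (-(1 / M)) := by
        have := Real.add_one_le_exp (-(1 / M)); linarith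
      have h3 : 0 ≤ 1 - 1 / M := by
        have : 1 / M ≤ 1 := by rw [div_le_one hMpos]; linarith
        linarith
      calc (1 - 1 / M) ^ s ≤ (Real.exp (-(1 / M))) ^ s := pow_le_pow_left₀ h3 h2 s
        _ = Real.exp (-(s / M)) := by rw [← Real.exp_nat_mul]; congr 1; ring
    have h4 : (w : ℝ) ≤ Real.exp (n * d * Real.log 2) := by
      have h5 : (w : ℝ) ≤ ((2 : ℝ) ^ n) ^ d := by exact_mod_cast hw
      refine h5.trans (le_of_eq ?_)
      rw [← pow_mul, ← Real.rpow_natCast, Real.rpow_def_of_pos (by norm_num)]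
      congr 1
      push_cast; ring
    calc (w : ℝ) * (1 - 1 / M) ^ s ≤ Real.exp (n * d * Real.log 2) * Real.exp (-(s / M)) :=
          mul_le_mul h4 h1 (by
            apply pow_nonneg
            have : 1 / M ≤ 1 := by rw [div_le_one hMpos]; linarith
            linarith) (Real.exp_pos _).le
      _ = _ := by rw [← Real.exp_add]; congr 1
  -- right side
  have hR : Real.exp (-(4 * q * (s * 2 ^ n))) ≤ (1 - 2 * q) ^ (s * 2 ^ n) := by
    have h1 := exp_le (y := 2 * q) (by linarith) (by linarith)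
    calc Real.exp (-(4 * q * (s * 2 ^ n))) = (Real.exp (-(2 * (2 * q)))) ^ (s * 2 ^ n) := by
          rw [← Real.exp_nat_mul]; congr 1; push_cast; ring
      _ ≤ _ := pow_le_pow_left₀ (Real.exp_pos _).le h1 _
  refine lt_of_le_of_lt hL (lt_of_lt_of_le ?_ hR)
  rw [Real.exp_lt_exp]
  -- `4 q s 2^n ≤ s / (4 M)`
  have h2n : (2 : ℝ) ^ n ≤ (2 ^ m) ^ 2 := by
    rw [← pow_mul]; exact pow_le_pow_right₀ (by norm_num) (by omega)
  have hA : 4 * q * (s * 2 ^ n) ≤ s / M * (1 / 4) := by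
    have h1 : 4 * q * (s * 2 ^ n) = s / M * (4 * 2 ^ n / M ^ 2) := by
      rw [hq]; field_simp
    rw [h1]
    apply mul_le_mul_of_nonneg_left _ (by positivity)
    rw [div_le_div_iff₀ (by positivity) (by norm_num), hMv]
    nlinarith
  -- `s / M ≥ 2^t / 8`
  have hB : (2 : ℝ) ^ t / 8 ≤ s / M := by
    rw [div_le_div_iff₀ (by norm_num) hMpos, hMv, hsr, hd, pow_add]
    have h3 : (1 : ℝ) ≤ 2 ^ m * 2 ^ t := by
      rw [← pow_add]; exact one_le_pow₀ (by norm_num)
    have h4 : (2 : ℝ) ≤ 2 ^ m * 2 ^ t := by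
      rw [← pow_add, ← hd]
      calc (2 : ℝ) = 2 ^ 1 := by norm_num
        _ ≤ 2 ^ d := pow_le_pow_right₀ (by norm_num) hd1
    nlinarith
  have hC : (16 : ℝ) * d ^ 2 ≤ 2 ^ t := by exact_mod_cast ht
  have hlog : Real.log 2 < 0.7 := by
    have := Real.log_two_lt_d9; linarith
  have hlog0 : 0 ≤ Real.log 2 := Real.log_nonneg (by norm_num)
  have hdr : (1 : ℝ) ≤ d := by exact_mod_cast hd1
  have hnd : (n : ℝ) ≤ 2 * d := by
    have : n ≤ 2 * d := by omega
    exact_mod_cast this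
  have hD : (n : ℝ) * d * Real.log 2 ≤ 1.4 * d ^ 2 := by
    have h1 : (n : ℝ) * d ≤ 2 * d ^ 2 := by nlinarith
    have h2 : (n : ℝ) * d * Real.log 2 ≤ 2 * d ^ 2 * Real.log 2 :=
      mul_le_mul_of_nonneg_right h1 hlog0
    nlinarith
  have hE : (1.5 : ℝ) * d ^ 2 ≤ s / M * (3 / 4) := by nlinarith
  nlinarith

lemma exists_set (d n m t : ℕ) (hd : d = m + t) (hd1 : 1 ≤ d) (hn : n ≤ 2 * m)
    (ht : 16 * d ^ 2 ≤ 2 ^ t) :
    ∃ A : Finset (Fin n → ZMod 2),
      (∀ x y : Fin n → ZMod 2, x ≠ 0 → y ≠ 0 → x ≠ y → ¬ (x ∈ A ∧ y ∈ A ∧ x + y ∈ A)) ∧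
      ∀ V : Submodule (ZMod 2) (Fin n → ZMod 2), finrank (ZMod 2) V = d →
        ∃ v ∈ V, v ≠ 0 ∧ v ∈ A := by
  classical
  have hself : ∀ x : Fin n → ZMod 2, x + x = 0 := fun x => by
    funext i
    exact CharTwo.add_self_eq_zero (x i)
  set TT : Finset (Finset (Fin n → ZMod 2)) :=
    univ.filter (fun T => ∃ x y : Fin n → ZMod 2, x ≠ 0 ∧ y ≠ 0 ∧ x ≠ y ∧ T = {x, y, x + y})
    with hTT
  set WW : Finset (Finset (Fin n → ZMod 2)) :=
    ((univ : Finset (Fin d → Fin n → ZMod 2)).image (fun b =>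
      univ.filter (fun v => v ∈ Submodule.span (ZMod 2) (Set.range b) ∧ v ≠ 0))).filter
        (fun W => W.card = 2 ^ d - 1) with hWW
  have hcardV : Fintype.card (Fin n → ZMod 2) = 2 ^ n := by simp [ZMod.card]
  have hT3 : ∀ T ∈ TT, T.card = 3 := by
    intro T hT
    obtain ⟨x, y, hx, hy, hxy, rfl⟩ := (mem_filter.1 hT).2
    rw [card_eq_three]
    refine ⟨x, y, x + y, hxy, ?_, ?_, rfl⟩
    · intro h; apply hy; simpa using h.symm
    · intro h; apply hx; simpa using h.symm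
  have hdeg : ∀ x : Fin n → ZMod 2, (TT.filter (fun T => x ∈ T)).card ≤ 2 ^ n := by
    intro x
    have h1 : TT.filter (fun T => x ∈ T) ⊆
        (univ : Finset (Fin n → ZMod 2)).image (fun y => ({x, y, x + y} : Finset _)) := by
      intro T hT
      obtain ⟨hT1, hxT⟩ := mem_filter.1 hT
      obtain ⟨a, b, ha, hb, hab, rfl⟩ := (mem_filter.1 hT1).2
      simp only [mem_insert, mem_singleton] at hxT
      rw [mem_image]
      rcases hxT with rfl | rfl | rfl
      · exact ⟨b, mem_univ _, rfl⟩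
      · refine ⟨a, mem_univ _, ?_⟩
        rw [add_comm x a]
        ext z; simp only [mem_insert, mem_singleton]; tauto
      · refine ⟨a, mem_univ _, ?_⟩
        have : a + b + a = b := by
          rw [add_comm a b, add_assoc, hself, add_zero]
        rw [this]
        ext z; simp only [mem_insert, mem_singleton]; tauto
    calc (TT.filter (fun T => x ∈ T)).card ≤ _ := card_le_card h1
      _ ≤ (univ : Finset (Fin n → ZMod 2)).card := card_image_le
      _ = 2 ^ n := by rw [card_univ, hcardV]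
  have hW : ∀ W ∈ WW, W.card = 2 ^ d - 1 := fun W hW => (mem_filter.1 hW).2
  have hwc : WW.card ≤ (2 ^ n) ^ d := by
    calc WW.card ≤ _ := card_filter_le _ _
      _ ≤ (univ : Finset (Fin d → Fin n → ZMod 2)).card := card_image_le
      _ = (2 ^ n) ^ d := by rw [card_univ, Fintype.card_fun, hcardV, Fintype.card_fin]
  have h12 : 12 * 2 ^ n ≤ (2 ^ (m + 2)) ^ 3 := by
    have h1 : 2 ^ n ≤ 2 ^ (2 * m) := Nat.pow_le_pow_right (by norm_num) hn
    have h2 : (2 ^ (m + 2)) ^ 3 = 64 * (2 ^ m * 2 ^ (2 * m)) := by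
      rw [← pow_mul, ← pow_add, show (64 : ℕ) = 2 ^ 6 by norm_num, ← pow_add]
      congr 1; ring
    have h3 : 1 ≤ 2 ^ m := Nat.one_le_two_pow
    rw [h2]
    nlinarith
  obtain ⟨A, hA1, hA2⟩ := Pool.Agent.V11181.Hit.exists_hit TT WW (2 ^ n) (2 ^ d - 1)
    (2 ^ (m + 2)) (by
      calc 2 = 2 ^ 1 := by norm_num
        _ ≤ 2 ^ (m + 2) := Nat.pow_le_pow_right (by norm_num) (by omega)) hT3 hdeg hW h12
    (numeric d n m t WW.card hd hd1 hn ht hwc)
  refine ⟨A, ?_, ?_⟩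
  · rintro x y hx hy hxy ⟨h1, h2, h3⟩
    apply hA1 {x, y, x + y}
    · rw [hTT, mem_filter]
      exact ⟨mem_univ _, x, y, hx, hy, hxy, rfl⟩
    · intro z hz
      simp only [mem_insert, mem_singleton] at hz
      rcases hz with rfl | rfl | rfl <;> assumption
  · intro V hV
    set W : Finset (Fin n → ZMod 2) := univ.filter (fun v => v ∈ V ∧ v ≠ 0) with hWdef
    have hmem : W ∈ WW := by
      rw [hWW, mem_filter]
      constructor
      · rw [mem_image]
        let b := Module.finBasisOfFinrankEq (ZMod 2) V hV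
        refine ⟨fun i => (b i : Fin n → ZMod 2), mem_univ _, ?_⟩
        have hspan : Submodule.span (ZMod 2)
            (Set.range fun i => (b i : Fin n → ZMod 2)) = V := by
          have h1 := b.span_eq
          have h2 : (Set.range fun i => (b i : Fin n → ZMod 2)) = V.subtype '' (Set.range b) := by
            rw [← Set.range_comp]; rfl
          rw [h2, Submodule.span_image, h1, Submodule.map_top, Submodule.range_subtype]
        rw [hspan]
      · have h1 : W = (univ.filter (fun v => v ∈ V)).erase 0 := by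
          ext v
          simp only [hWdef, mem_filter, mem_univ, true_and, mem_erase]
          tauto
        have h2 : (univ.filter (fun v => v ∈ V)).card = 2 ^ d := by
          have h3 : (univ.filter (fun v => v ∈ V)).card = Fintype.card V := by
            rw [Fintype.card_subtype]
          rw [h3, Module.card_eq_pow_finrank (K := ZMod 2) (V := V), hV, ZMod.card]
        rw [h1, card_erase_of_mem (by simp), h2]
    obtain ⟨x, hx, hxA⟩ := hA2 W hmem
    obtain ⟨-, hxV, hx0⟩ := mem_filter.1 hx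
    exact ⟨x, hxV, hx0, hxA⟩

lemma not_arrow (r d n m t : ℕ) (hr : 2 ≤ r) (hd : d = m + t) (hd1 : 1 ≤ d) (hn : n ≤ 2 * m)
    (ht : 16 * d ^ 2 ≤ 2 ^ t) : ¬ Arrow r d n := by
  classical
  obtain ⟨A, hA1, hA2⟩ := exists_set d n m t hd hd1 hn ht
  intro h
  let c : (Fin n → ZMod 2) → Fin r := fun v => if v ∈ A then ⟨0, by omega⟩ else ⟨r - 1, by omega⟩
  rcases h c with ⟨i, hi, V, hV, hmono⟩ | ⟨i, hi, V, hV, hmono⟩
  · -- a two-dimensional monochromatic subspace in a non-last colour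
    let b := Module.finBasisOfFinrankEq (ZMod 2) V hV
    set x : Fin n → ZMod 2 := (b 0 : Fin n → ZMod 2) with hx
    set y : Fin n → ZMod 2 := (b 1 : Fin n → ZMod 2) with hy
    have hx0 : x ≠ 0 := by
      intro h0
      exact b.ne_zero 0 (Subtype.ext h0)
    have hy0 : y ≠ 0 := by
      intro h0
      exact b.ne_zero 1 (Subtype.ext h0)
    have hxy : x ≠ y := by
      intro h0
      have := b.injective (Subtype.ext h0)
      exact absurd this (by decide)
    have hxV : x ∈ V := (b 0).2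
    have hyV : y ∈ V := (b 1).2
    have hxyV : x + y ∈ V := V.add_mem hxV hyV
    have hxy0 : x + y ≠ 0 := by
      intro h0
      apply hxy
      have h1 : x = -y := eq_neg_of_add_eq_zero_left h0
      rw [h1]
      funext j
      exact ZMod.neg_eq_self_mod_two _
    have hcA : ∀ v ∈ V, v ≠ 0 → v ∈ A := by
      intro v hv hv0
      by_contra hvA
      have h1 := hmono v hv hv0
      simp only [c, if_neg hvA] at h1
      rw [← h1] at hi
      simp only at hi
      omega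
    exact hA1 x y hx0 hy0 hxy ⟨hcA x hxV hx0, hcA y hyV hy0, hcA _ hxyV hxy0⟩
  · obtain ⟨v, hvV, hv0, hvA⟩ := hA2 V hV
    have h1 := hmono v hvV hv0
    simp only [c, if_pos hvA] at h1
    rw [← h1] at hi
    simp only at hi
    omega

lemma explicit (r d n : ℕ) (hr : 2 ≤ r) (hd1 : 1 ≤ d) (h : Arrow r d n) :
    2 * d ≤ n + 4 * Nat.log 2 d + 11 := by
  by_contra hcon
  push Not at hcon
  set L := Nat.log 2 d with hL
  set t := 2 * L + 6 with ht
  have htd : t ≤ d := by omega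
  refine not_arrow r d n (d - t) t hr (by omega) hd1 (by omega) ?_ h
  have h1 : d < 2 ^ (L + 1) := Nat.lt_pow_succ_log_self (by norm_num) d
  have h2 : d ^ 2 ≤ (2 ^ (L + 1)) ^ 2 := Nat.pow_le_pow_left h1.le 2
  calc 16 * d ^ 2 ≤ 16 * (2 ^ (L + 1)) ^ 2 := Nat.mul_le_mul_left _ h2
    _ = 2 ^ t := by
      rw [← pow_mul, show (16 : ℕ) = 2 ^ 4 by norm_num, ← pow_add, ht]
      congr 1; ring

lemma arrow_of_R_le {r d n : ℕ} (h : R r d ≤ n) : ∃ k ≤ n, Arrow r d k := by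
  by_contra hcon
  push Not at hcon
  have h1 : ((n + 1 : ℕ) : ℕ∞) ≤ R r d := by
    unfold R
    apply le_sInf
    rintro _ ⟨k, hk, rfl⟩
    have : n < k := by
      by_contra hkn
      exact hcon k (by omega) hk
    have h2 : n + 1 ≤ k := this
    show ((n + 1 : ℕ) : ℕ∞) ≤ (k : ℕ∞)
    exact_mod_cast h2
  have h2 : ((n + 1 : ℕ) : ℕ∞) ≤ (n : ℕ∞) := h1.trans h
  have h3 : n + 1 ≤ n := by exact_mod_cast h2
  omega

/-- For every number `r ≥ 2` of colours, `R^{(r)}_{F_2}(2; d) ≥ 2 d - 4 ⌊log_2 d⌋ - 11`; hence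
`R^{(r)}_{F_2}(2; d) ≥ (3/2 + c - o(1)) d` with `c = 1/2`. -/
theorem result (r : ℕ) (hr : 2 ≤ r) :
    (∀ d : ℕ, 1 ≤ d → ∀ n : ℕ, R r d ≤ n → 2 * d ≤ n + 4 * Nat.log 2 d + 11) ∧
    ∃ c : ℝ, 0 < c ∧ c = 1 / 2 ∧ ∀ ε : ℝ, 0 < ε → ∃ D : ℕ, ∀ d : ℕ, D ≤ d → ∀ n : ℕ,
      R r d ≤ n → (3 / 2 + c - ε) * d ≤ n := by
  have key : ∀ d : ℕ, 1 ≤ d → ∀ n : ℕ, R r d ≤ n → 2 * d ≤ n + 4 * Nat.log 2 d + 11 := by
    intro d hd n hn
    obtain ⟨k, hk, hkA⟩ := arrow_of_R_le hn
    have := explicit r d k hr hd hkA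
    omega
  refine ⟨key, 1 / 2, by norm_num, rfl, ?_⟩
  intro ε hε
  -- `4 log_2 d + 11 ≤ ε d` for large `d`
  have hlim : Filter.Tendsto (fun d : ℕ => Real.log (d : ℝ) / (d : ℝ)) Filter.atTop
      (nhds 0) := by
    have h1 := Real.isLittleO_log_id_atTop.tendsto_div_nhds_zero
    exact h1.comp tendsto_natCast_atTop_atTop
  have hlog2 : 0 < Real.log 2 := Real.log_pos (by norm_num)
  have hev := hlim.eventually (gt_mem_nhds (show (0 : ℝ) < ε * Real.log 2 / 8 by positivity))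
  obtain ⟨D0, hD0⟩ := Filter.eventually_atTop.1 hev
  obtain ⟨D1, hD1⟩ := exists_nat_gt (22 / ε)
  refine ⟨max D0 (max D1 1), ?_⟩
  intro d hd n hn
  have hd0 : D0 ≤ d := le_trans (le_max_left _ _) hd
  have hd1 : D1 ≤ d := le_trans (le_trans (le_max_left _ _) (le_max_right _ _)) hd
  have hd2 : 1 ≤ d := le_trans (le_trans (le_max_right _ _) (le_max_right _ _)) hd
  have hk := key d hd2 n hn
  have hkr : (2 : ℝ) * d ≤ n + 4 * (Nat.log 2 d : ℝ) + 11 := by exact_mod_cast hk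
  have hdr : (1 : ℝ) ≤ d := by exact_mod_cast hd2
  have h1 : (Nat.log 2 d : ℝ) ≤ Real.logb 2 d := Real.natLog_le_logb d 2
  have h2 : Real.logb 2 d = Real.log d / Real.log 2 := rfl
  have h3 := hD0 d hd0
  have h4 : Real.log d < ε * Real.log 2 / 8 * d := by
    rwa [div_lt_iff₀ (by linarith)] at h3
  have h5 : Real.log d / Real.log 2 ≤ ε / 8 * d := by
    rw [div_le_iff₀ hlog2]
    linarith
  have h6 : 22 ≤ ε * d := by
    have : (D1 : ℝ) ≤ d := by exact_mod_cast hd1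
    have h7 : 22 / ε < d := lt_of_lt_of_le hD1 this
    rw [div_lt_iff₀ hε] at h7
    linarith
  rw [h2] at h1
  nlinarith

end Pool.Agent.Results.MP_b5ddc9_co.TwoTimesD
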